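import Pool.Agent.helper9.HX.Spec

set_option autoImplicit false

open Finset
open scoped Classical
open Pool.Agent.helper65.HC (V IsEig IsTop lam)
open Pool.Agent.helper9.HQ (Fam Dn E N Le hi c)
open Pool.Agent.helper9

namespace Pool.Agent.helper9.HX

theorem OPH (hEMB : EMB_stmt) (hV3C : V3C_stmt) (hUBX : UBX_stmt) : OPH_stmt := by
  obtain ⟨m₀, hm₀⟩ := hUBX
  refine ⟨m₀, ?_⟩
  intro m hm d U f hU h0 hc
  obtain ⟨S, hS1, hS2⟩ := hV3C d U hU h0
  obtain ⟨u1, u2⟩ := hm₀ m hm ((3 * m + 6) / 7) (by omega) (by omega)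
  have hcard : (hi U).card ≤ m := by
    rw [← hc]; exact Finset.card_le_card (Finset.filter_subset _ _)
  have h1 := hEMB d ((3 * m + 6) / 7) m (hi U) S f hS1 (by omega) hcard u2
  have h2 : lam ((3 * m + 6) / 7) m ≤ √(9 / 20 * (m : ℝ)) := Real.le_sqrt_of_sq_le u1
  have h3 : 0 ≤ N (hi U) f := Finset.sum_nonneg (fun x _ => sq_nonneg _)
  exact h1.trans (mul_le_mul_of_nonneg_right h2 h3)

end Pool.Agent.helper9.HX
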